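import Mathlib

set_option autoImplicit false

namespace Pool.Agent.Results.MP_95a67a_ag.CodimOneFails

open MvPolynomial

/-- The real cone spanned by the vectors `u ρ`, `ρ ∈ σ`. -/
def coneOf {n r : ℕ} (u : Fin r → (Fin n → ℤ)) (σ : Finset (Fin r)) : Set (Fin n → ℝ) :=
  {v | ∃ a : Fin r → ℝ, (∀ ρ, 0 ≤ a ρ) ∧ (∀ ρ, ρ ∉ σ → a ρ = 0) ∧
    ∀ i, v i = ∑ ρ, a ρ * (u ρ i : ℝ)}

/-- A complete simplicial fan in `ℝ ^ n` with rays indexed by `Fin r`: the primitive ray generators
and the sets of rays that span a cone of the fan. -/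
structure CompleteSimplicialFan (n r : ℕ) where
  /-- the ray generators -/
  u : Fin r → (Fin n → ℤ)
  /-- the cones, each given by its set of rays -/
  cones : Set (Finset (Fin r))
  /-- the ray generators are primitive (in particular nonzero) -/
  primitive : ∀ ρ, ∀ (c : ℤ) (v : Fin n → ℤ), u ρ = c • v → c = 1 ∨ c = -1
  /-- every ray is a cone of the fan -/
  ray_mem : ∀ ρ, {ρ} ∈ cones
  /-- faces of cones of the fan are cones of the fan -/
  face_mem : ∀ σ ∈ cones, ∀ τ, τ ⊆ σ → τ ∈ cones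
  /-- the cones are simplicial -/
  simplicial : ∀ σ ∈ cones, LinearIndependent ℝ (fun ρ : σ => (fun i => ((u ρ i : ℤ) : ℝ)))
  /-- two cones meet in their common face -/
  inter : ∀ σ ∈ cones, ∀ τ ∈ cones, coneOf u σ ∩ coneOf u τ = coneOf u (σ ∩ τ)
  /-- the cones cover the space -/
  complete : ∀ v : Fin n → ℝ, ∃ σ ∈ cones, v ∈ coneOf u σ

variable {n r : ℕ} (Δ : CompleteSimplicialFan n r)

/-- The map `M → ℤ ^ Σ(1)`, `m ↦ (⟨m, u_ρ⟩)_ρ`. -/
def divMap : (Fin n → ℤ) →ₗ[ℤ] (Fin r → ℤ) where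
  toFun m ρ := ∑ i, m i * Δ.u ρ i
  map_add' := by intro x y; funext ρ; simp [add_mul, Finset.sum_add_distrib]
  map_smul' := by intro c x; funext ρ; simp [Finset.mul_sum, mul_assoc]

/-- The class group `Cl(X) = ℤ ^ Σ(1) / M`. -/
abbrev Cl : Type := (Fin r → ℤ) ⧸ LinearMap.range (divMap Δ)

/-- The degree `[D_ρ]` of the Cox variable `x_ρ`. -/
def degX (ρ : Fin r) : Cl Δ := Submodule.Quotient.mk (Pi.single ρ 1)

/-- The irrelevant ideal `B(Σ)`. -/
noncomputable def irrelevant : Ideal (MvPolynomial (Fin r) ℂ) :=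
  Ideal.span {p | ∃ σ ∈ Δ.cones, p = ∏ ρ ∈ σᶜ, X ρ}

/-- The common zero set of the `F i` lies in the zero set of the irrelevant ideal, i.e. the `F i`
do not vanish simultaneously on `X`. -/
def NoCommonZero (F : Fin (n + 1) → MvPolynomial (Fin r) ℂ) : Prop :=
  ∀ x : Fin r → ℂ, (∀ i, eval x (F i) = 0) → ∀ b ∈ irrelevant Δ, eval x b = 0

/-- The critical degree `ω = ∑ deg F_i - ∑ deg x_ρ`. -/
def critical (α : Fin (n + 1) → Cl Δ) : Cl Δ := (∑ i, α i) - ∑ ρ, degX Δ ρ

/-- The graded piece `(F_0, …, F_n)_ω`, as a subspace of `S_ω`. -/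
noncomputable def idealPiece (F : Fin (n + 1) → MvPolynomial (Fin r) ℂ) (ω : Cl Δ) :
    Submodule ℂ (weightedHomogeneousSubmodule ℂ (degX Δ) ω) :=
  ((Ideal.span (Set.range F)).restrictScalars ℂ).comap
    (weightedHomogeneousSubmodule ℂ (degX Δ) ω).subtype

/-- The codimension one conjecture: the quotient `S_ω / (F_0, …, F_n)_ω` is one dimensional. -/
def CodimensionOneConjecture : Prop :=
  ∀ (n r : ℕ) (Δ : CompleteSimplicialFan n r) (F : Fin (n + 1) → MvPolynomial (Fin r) ℂ)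
    (α : Fin (n + 1) → Cl Δ),
    (∀ i, IsWeightedHomogeneous (degX Δ) (F i) (α i)) →
    (∀ i, F i ∈ irrelevant Δ) →
    NoCommonZero Δ F →
    Module.rank ℂ (weightedHomogeneousSubmodule ℂ (degX Δ) (critical Δ α) ⧸
      idealPiece Δ F (critical Δ α)) = 1

/-! ### The Hirzebruch surface `F_1` -/

/-- the rays of the fan of `F_1` -/
def uH : Fin 4 → (Fin 2 → ℤ) := ![![1, 0], ![0, 1], ![-1, 1], ![0, -1]]

/-- the cones of the fan of `F_1` -/
def conesH : Set (Finset (Fin 4)) :=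
  {σ | ¬ ((0 : Fin 4) ∈ σ ∧ (2 : Fin 4) ∈ σ) ∧ ¬ ((1 : Fin 4) ∈ σ ∧ (3 : Fin 4) ∈ σ)}

lemma unique_rep {σ τ : Finset (Fin 4)} (hσ : σ ∈ conesH) (hτ : τ ∈ conesH)
    {a b : Fin 4 → ℝ} (ha : ∀ ρ, 0 ≤ a ρ) (hb : ∀ ρ, 0 ≤ b ρ)
    (ha' : ∀ ρ, ρ ∉ σ → a ρ = 0) (hb' : ∀ ρ, ρ ∉ τ → b ρ = 0)
    (h : ∀ i, ∑ ρ, a ρ * (uH ρ i : ℝ) = ∑ ρ, b ρ * (uH ρ i : ℝ)) : a = b := by
  have h0 := h 0
  have h1 := h 1
  simp [Fin.sum_univ_four, uH] at h0 h1
  have a02 : a 0 = 0 ∨ a 2 = 0 := by
    by_cases h : (0 : Fin 4) ∈ σ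
    · right; apply ha'; intro h'; exact hσ.1 ⟨h, h'⟩
    · left; exact ha' _ h
  have a13 : a 1 = 0 ∨ a 3 = 0 := by
    by_cases h : (1 : Fin 4) ∈ σ
    · right; apply ha'; intro h'; exact hσ.2 ⟨h, h'⟩
    · left; exact ha' _ h
  have b02 : b 0 = 0 ∨ b 2 = 0 := by
    by_cases h : (0 : Fin 4) ∈ τ
    · right; apply hb'; intro h'; exact hτ.1 ⟨h, h'⟩
    · left; exact hb' _ h
  have b13 : b 1 = 0 ∨ b 3 = 0 := by
    by_cases h : (1 : Fin 4) ∈ τ
    · right; apply hb'; intro h'; exact hτ.2 ⟨h, h'⟩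
    · left; exact hb' _ h
  have pa0 := ha 0
  have pa1 := ha 1
  have pa2 := ha 2
  have pa3 := ha 3
  have pb0 := hb 0
  have pb1 := hb 1
  have pb2 := hb 2
  have pb3 := hb 3
  have e0 : a 0 = b 0 ∧ a 2 = b 2 := by
    rcases a02 with h | h <;> rcases b02 with h' | h' <;> constructor <;> linarith
  have e1 : a 1 = b 1 ∧ a 3 = b 3 := by
    obtain ⟨e0, e2⟩ := e0
    rcases a13 with h | h <;> rcases b13 with h' | h' <;> constructor <;> linarith
  funext ρ
  fin_cases ρ
  · exact e0.1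
  · exact e1.1
  · exact e0.2
  · exact e1.2

/-- The fan of the Hirzebruch surface `F_1`. -/
def fanH : CompleteSimplicialFan 2 4 where
  u := uH
  cones := conesH
  primitive := by
    intro ρ c v h
    have h0 := congrFun h 0
    have h1 := congrFun h 1
    have key : ∀ x : ℤ, c * x = 1 ∨ c * x = -1 → c = 1 ∨ c = -1 := by
      intro x hx
      have : IsUnit c := by
        rcases hx with hx | hx
        · exact IsUnit.of_mul_eq_one _ hx
        · exact IsUnit.of_mul_eq_one (-x) (by linarith)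
      exact Int.isUnit_iff.mp this
    fin_cases ρ <;> simp [uH] at h0 h1
    · exact key _ (Or.inl h0.symm)
    · exact key _ (Or.inl h1.symm)
    · exact key _ (Or.inl h1.symm)
    · exact key _ (Or.inr h1.symm)
  ray_mem := by
    intro ρ
    fin_cases ρ <;> simp [conesH]
  face_mem := by
    intro σ hσ τ hτ
    exact ⟨fun h => hσ.1 ⟨hτ h.1, hτ h.2⟩, fun h => hσ.2 ⟨hτ h.1, hτ h.2⟩⟩
  simplicial := by
    intro σ hσ
    rw [Fintype.linearIndependent_iff]
    intro g hg
    -- split into positive and negative parts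
    classical
    let a : Fin 4 → ℝ := fun ρ => if h : ρ ∈ σ then max (g ⟨ρ, h⟩) 0 else 0
    let b : Fin 4 → ℝ := fun ρ => if h : ρ ∈ σ then max (-g ⟨ρ, h⟩) 0 else 0
    have hab : a = b := by
      refine unique_rep hσ hσ ?_ ?_ ?_ ?_ ?_
      · intro ρ; simp only [a]; split_ifs <;> simp
      · intro ρ; simp only [b]; split_ifs <;> simp
      · intro ρ h; simp only [a]; rw [dif_neg h]
      · intro ρ h; simp only [b]; rw [dif_neg h]
      · intro i
        have hgi := congrFun hg i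
        simp only [Finset.sum_apply, Pi.smul_apply, smul_eq_mul, Pi.zero_apply] at hgi
        rw [← sub_eq_zero, ← Finset.sum_sub_distrib]
        rw [← hgi]
        have e1 : ∀ ρ, a ρ * (uH ρ i : ℝ) - b ρ * (uH ρ i : ℝ) =
            if h : ρ ∈ σ then g ⟨ρ, h⟩ * (uH ρ i : ℝ) else 0 := by
          intro ρ
          simp only [a, b]
          split_ifs with h
          · rw [← sub_mul]
            congr 1
            rcases le_total (g ⟨ρ, h⟩) 0 with h' | h'
            · rw [max_eq_right h', max_eq_left (by linarith)]; ring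
            · rw [max_eq_left h', max_eq_right (by linarith)]; ring
          · ring
        rw [Finset.sum_congr rfl (fun ρ _ => e1 ρ),
          ← Finset.sum_subset (Finset.subset_univ σ) (by intro ρ _ h; rw [dif_neg h]),
          ← Finset.sum_attach σ, ← Finset.univ_eq_attach]
        apply Finset.sum_congr rfl
        intro ρ _
        rw [dif_pos ρ.2]
    intro ρ
    have := congrFun hab ρ
    simp only [a, b, dif_pos ρ.2] at this
    rcases le_total (g ρ) 0 with h' | h'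
    · rw [max_eq_right h', max_eq_left (by linarith)] at this; linarith
    · rw [max_eq_left h', max_eq_right (by linarith)] at this; linarith
  inter := by
    intro σ hσ τ hτ
    ext v
    constructor
    · rintro ⟨⟨a, ha, ha', hv⟩, ⟨b, hb, hb', hv'⟩⟩
      have hab := unique_rep hσ hτ ha hb ha' hb' (fun i => by rw [← hv, ← hv'])
      refine ⟨a, ha, ?_, hv⟩
      intro ρ hρ
      rw [Finset.mem_inter, not_and_or] at hρ
      rcases hρ with h | h
      · exact ha' ρ h
      · rw [hab]; exact hb' ρ h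
    · rintro ⟨a, ha, ha', hv⟩
      refine ⟨⟨a, ha, ?_, hv⟩, ⟨a, ha, ?_, hv⟩⟩
      · intro ρ h; exact ha' ρ (fun h' => h (Finset.mem_inter.mp h').1)
      · intro ρ h; exact ha' ρ (fun h' => h (Finset.mem_inter.mp h').2)
  complete := by
    intro v
    let a : Fin 4 → ℝ := ![max (v 0) 0, max (v 1 - max (-v 0) 0) 0, max (-v 0) 0,
      max (-(v 1 - max (-v 0) 0)) 0]
    refine ⟨Finset.univ.filter (fun ρ => a ρ ≠ 0), ?_, a, ?_, ?_, ?_⟩
    · constructor
      · rintro ⟨h1, h2⟩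
        simp [a] at h1 h2
        linarith
      · rintro ⟨h1, h2⟩
        simp [a] at h1 h2
        linarith [h2 h1.1.le]
    · intro ρ
      fin_cases ρ <;> simp [a]
    · intro ρ h
      by_contra h'
      exact h (Finset.mem_filter.mpr ⟨Finset.mem_univ _, h'⟩)
    · intro i
      have key : ∀ x : ℝ, max x 0 - max (-x) 0 = x := by
        intro x
        rcases le_total x 0 with h | h
        · rw [max_eq_right h, max_eq_left (by linarith)]; ring
        · rw [max_eq_left h, max_eq_right (by linarith)]; ring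
      fin_cases i
      · simp [Fin.sum_univ_four, uH, a]
        linarith [key (v 0)]
      · simp [Fin.sum_univ_four, uH, a]
        have := key (v 1 - max (-v 0) 0)
        simp at this
        linarith

/-! ### The polynomials -/

/-- the three polynomials -/
noncomputable def FH : Fin (2 + 1) → MvPolynomial (Fin 4) ℂ :=
  ![X 0 * (X 1 * X 1), X 0 * X 3 + X 1 * (X 2 * X 2), X 2 * X 3]

lemma deg02 : degX fanH 2 = degX fanH 0 := by
  unfold degX
  rw [Submodule.Quotient.eq]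
  refine ⟨![-1, 0], ?_⟩
  funext ρ
  fin_cases ρ <;> simp [divMap, fanH, uH]

lemma deg3 : degX fanH 3 = degX fanH 1 + degX fanH 0 := by
  rw [← deg02]
  unfold degX
  rw [← Submodule.Quotient.mk_add, Submodule.Quotient.eq]
  refine ⟨![0, -1], ?_⟩
  funext ρ
  fin_cases ρ <;> simp [divMap, fanH, uH]

/-- the degrees of the three polynomials -/
def αH : Fin (2 + 1) → Cl fanH :=
  ![degX fanH 0 + (degX fanH 1 + degX fanH 1), degX fanH 0 + degX fanH 3,
    degX fanH 2 + degX fanH 3]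

lemma hom_FH : ∀ i, IsWeightedHomogeneous (degX fanH) (FH i) (αH i) := by
  have hX := fun i => isWeightedHomogeneous_X ℂ (degX fanH) i
  intro i
  fin_cases i
  · exact (hX 0).mul ((hX 1).mul (hX 1))
  · have h1 := (hX 0).mul (hX 3)
    have h2 := (hX 1).mul ((hX 2).mul (hX 2))
    have e : degX fanH 1 + (degX fanH 2 + degX fanH 2) = degX fanH 0 + degX fanH 3 := by
      rw [deg02, deg3]; abel
    rw [e] at h2
    exact h1.add h2
  · exact (hX 2).mul (hX 3)

lemma critical_H : critical fanH αH = degX fanH 0 + (degX fanH 1 + degX fanH 3) := by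
  have h1 : ∑ i, αH i = αH 0 + αH 1 + αH 2 := Fin.sum_univ_three _
  have a0 : αH 0 = degX fanH 0 + (degX fanH 1 + degX fanH 1) := rfl
  have a1 : αH 1 = degX fanH 0 + degX fanH 3 := rfl
  have a2 : αH 2 = degX fanH 2 + degX fanH 3 := rfl
  unfold critical
  rw [h1, Fin.sum_univ_four, a0, a1, a2]
  abel

lemma mem01 : (X 0 * X 1 : MvPolynomial (Fin 4) ℂ) ∈ irrelevant fanH := by
  refine Ideal.subset_span ⟨{2, 3}, by simp [fanH, conesH], ?_⟩
  have : ({2, 3} : Finset (Fin 4))ᶜ = {0, 1} := by decide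
  rw [this, Finset.prod_pair (by decide)]

lemma mem03 : (X 0 * X 3 : MvPolynomial (Fin 4) ℂ) ∈ irrelevant fanH := by
  refine Ideal.subset_span ⟨{1, 2}, by simp [fanH, conesH], ?_⟩
  have : ({1, 2} : Finset (Fin 4))ᶜ = {0, 3} := by decide
  rw [this, Finset.prod_pair (by decide)]

lemma mem12 : (X 1 * X 2 : MvPolynomial (Fin 4) ℂ) ∈ irrelevant fanH := by
  refine Ideal.subset_span ⟨{0, 3}, by simp [fanH, conesH], ?_⟩
  have : ({0, 3} : Finset (Fin 4))ᶜ = {1, 2} := by decide
  rw [this, Finset.prod_pair (by decide)]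

lemma mem23 : (X 2 * X 3 : MvPolynomial (Fin 4) ℂ) ∈ irrelevant fanH := by
  refine Ideal.subset_span ⟨{0, 1}, by simp [fanH, conesH], ?_⟩
  have : ({0, 1} : Finset (Fin 4))ᶜ = {2, 3} := by decide
  rw [this, Finset.prod_pair (by decide)]

lemma FH_mem : ∀ i, FH i ∈ irrelevant fanH := by
  intro i
  fin_cases i
  · have := Ideal.mul_mem_right (X 1) _ mem01
    simpa [FH, mul_assoc] using this
  · have := Ideal.mul_mem_right (X 2) _ mem12
    have h := Ideal.add_mem _ mem03 this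
    simpa [FH, mul_assoc] using h
  · simpa [FH] using mem23

lemma noCommonZero_H : NoCommonZero fanH FH := by
  intro x hx b hb
  have h0 := hx 0
  have h1 := hx 1
  have h2 := hx 2
  simp [FH] at h0 h1 h2
  have key : (x 0 = 0 ∧ x 2 = 0) ∨ (x 1 = 0 ∧ x 3 = 0) := by
    rcases h2 with h2 | h2
    · rw [h2] at h1
      simp at h1
      tauto
    · rw [h2] at h1
      simp at h1
      tauto
  have hle : irrelevant fanH ≤ RingHom.ker (eval x) := by
    unfold irrelevant
    rw [Ideal.span_le]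
    rintro p ⟨σ, hσ, rfl⟩
    show eval x (∏ ρ ∈ σᶜ, X ρ) = 0
    rw [map_prod]
    simp only [eval_X]
    rcases key with ⟨k0, k2⟩ | ⟨k1, k3⟩
    · by_cases h : (0 : Fin 4) ∈ σ
      · have h' : (2 : Fin 4) ∉ σ := fun h' => hσ.1 ⟨h, h'⟩
        exact Finset.prod_eq_zero (Finset.mem_compl.mpr h') k2
      · exact Finset.prod_eq_zero (Finset.mem_compl.mpr h) k0
    · by_cases h : (1 : Fin 4) ∈ σ
      · have h' : (3 : Fin 4) ∉ σ := fun h' => hσ.2 ⟨h, h'⟩
        exact Finset.prod_eq_zero (Finset.mem_compl.mpr h') k3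
      · exact Finset.prod_eq_zero (Finset.mem_compl.mpr h) k1
  exact hle hb

/-- exponent vectors -/
noncomputable def ex (a b c d : ℕ) : Fin 4 →₀ ℕ := Finsupp.equivFunOnFinite.symm ![a, b, c, d]

lemma mon_ex (a b c d : ℕ) :
    (monomial (ex a b c d) (1 : ℂ)) = X 0 ^ a * X 1 ^ b * X 2 ^ c * X 3 ^ d := by
  rw [monomial_eq, C_1, one_mul, Finsupp.prod_fintype _ _ (by intro i; simp), Fin.prod_univ_four]
  simp [ex]

lemma ex_le (a b c d a' b' c' d' : ℕ) :
    ex a b c d ≤ ex a' b' c' d' ↔ a ≤ a' ∧ b ≤ b' ∧ c ≤ c' ∧ d ≤ d' := by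
  rw [Finsupp.le_def]
  constructor
  · intro h
    have h0 := h 0
    have h1 := h 1
    have h2 := h 2
    have h3 := h 3
    simp [ex] at h0 h1 h2 h3
    exact ⟨h0, h1, h2, h3⟩
  · rintro ⟨h0, h1, h2, h3⟩ i
    fin_cases i <;> simp [ex] <;> assumption

lemma ex_sub (a b c d a' b' c' d' : ℕ) :
    ex a b c d - ex a' b' c' d' = ex (a - a') (b - b') (c - c') (d - d') := by
  ext i
  fin_cases i <;> simp [ex]

lemma ex_inj (a b c d a' b' c' d' : ℕ) :
    ex a b c d = ex a' b' c' d' ↔ a = a' ∧ b = b' ∧ c = c' ∧ d = d' := by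
  rw [le_antisymm_iff, ex_le, ex_le]
  omega

/-- the two functionals -/
noncomputable def Lam : MvPolynomial (Fin 4) ℂ →ₗ[ℂ] (Fin 2 → ℂ) where
  toFun p := ![coeff (ex 0 0 0 2) p, coeff (ex 0 2 2 0) p - coeff (ex 1 1 0 1) p]
  map_add' := by
    intro p q
    ext i
    fin_cases i
    · simp
    · simp; ring
  map_smul' := by
    intro c p
    ext i
    fin_cases i
    · simp
    · simp; ring

lemma Lam_mul_FH (g : MvPolynomial (Fin 4) ℂ) (i : Fin (2 + 1)) : Lam (g * FH i) = 0 := by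
  have e0 : (X 0 * (X 1 * X 1) : MvPolynomial (Fin 4) ℂ) = monomial (ex 1 2 0 0) 1 := by
    rw [mon_ex]; ring
  have e1 : (X 0 * X 3 : MvPolynomial (Fin 4) ℂ) = monomial (ex 1 0 0 1) 1 := by
    rw [mon_ex]; ring
  have e1' : (X 1 * (X 2 * X 2) : MvPolynomial (Fin 4) ℂ) = monomial (ex 0 1 2 0) 1 := by
    rw [mon_ex]; ring
  have e2 : (X 2 * X 3 : MvPolynomial (Fin 4) ℂ) = monomial (ex 0 0 1 1) 1 := by
    rw [mon_ex]; ring
  fin_cases i
  · simp only [FH, Fin.zero_eta, Matrix.cons_val_zero]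
    rw [e0]
    ext j
    fin_cases j <;> simp [Lam, coeff_mul_monomial', ex_le]
  · simp only [FH, Fin.mk_one, Matrix.cons_val_one, Matrix.cons_val_zero]
    rw [e1, e1', mul_add]
    ext j
    fin_cases j <;> simp [Lam, coeff_mul_monomial', ex_le, ex_sub]
  · simp only [FH, Fin.reduceFinMk, Matrix.cons_val]
    rw [e2]
    ext j
    fin_cases j <;> simp [Lam, coeff_mul_monomial', ex_le]

lemma Lam_ideal (p : MvPolynomial (Fin 4) ℂ) (hp : p ∈ Ideal.span (Set.range FH)) : Lam p = 0 := by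
  obtain ⟨c, rfl⟩ := (Ideal.mem_span_range_iff_exists_fun).mp hp
  rw [map_sum]
  exact Finset.sum_eq_zero (fun i _ => Lam_mul_FH _ i)

lemma homA : (monomial (ex 0 0 0 2) (1 : ℂ)) ∈
    weightedHomogeneousSubmodule ℂ (degX fanH) (critical fanH αH) := by
  rw [mem_weightedHomogeneousSubmodule, critical_H]
  have hX := fun i => isWeightedHomogeneous_X ℂ (degX fanH) i
  have h := (hX 3).mul (hX 3)
  have e : degX fanH 3 + degX fanH 3 = degX fanH 0 + (degX fanH 1 + degX fanH 3) := by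
    rw [deg3]; abel
  rw [e] at h
  have e2 : (X 3 * X 3 : MvPolynomial (Fin 4) ℂ) = monomial (ex 0 0 0 2) 1 := by
    rw [mon_ex]; ring
  rwa [e2] at h

lemma homB : (monomial (ex 0 2 2 0) (1 : ℂ)) ∈
    weightedHomogeneousSubmodule ℂ (degX fanH) (critical fanH αH) := by
  rw [mem_weightedHomogeneousSubmodule, critical_H]
  have hX := fun i => isWeightedHomogeneous_X ℂ (degX fanH) i
  have h := ((hX 1).mul (hX 1)).mul ((hX 2).mul (hX 2))
  have e : degX fanH 1 + degX fanH 1 + (degX fanH 2 + degX fanH 2) =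
      degX fanH 0 + (degX fanH 1 + degX fanH 3) := by
    rw [deg3, deg02]; abel
  rw [e] at h
  have e2 : (X 1 * X 1 * (X 2 * X 2) : MvPolynomial (Fin 4) ℂ) = monomial (ex 0 2 2 0) 1 := by
    rw [mon_ex]; ring
  rwa [e2] at h

/-- The map from the quotient to `ℂ ^ 2`. -/
noncomputable def LamQ : (weightedHomogeneousSubmodule ℂ (degX fanH) (critical fanH αH) ⧸
      idealPiece fanH FH (critical fanH αH)) →ₗ[ℂ] (Fin 2 → ℂ) :=
  (idealPiece fanH FH (critical fanH αH)).liftQ
    (Lam ∘ₗ (weightedHomogeneousSubmodule ℂ (degX fanH) (critical fanH αH)).subtype)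
    (by
      intro p hp
      exact Lam_ideal _ hp)

lemma LamQ_surj : Function.Surjective LamQ := by
  intro v
  refine ⟨Submodule.Quotient.mk (v 0 • ⟨_, homA⟩ + v 1 • ⟨_, homB⟩), ?_⟩
  have : LamQ (Submodule.Quotient.mk (v 0 • ⟨_, homA⟩ + v 1 • ⟨_, homB⟩)) =
      Lam (v 0 • monomial (ex 0 0 0 2) (1 : ℂ) + v 1 • monomial (ex 0 2 2 0) (1 : ℂ)) := rfl
  rw [this]
  ext j
  fin_cases j <;> simp [Lam, coeff_monomial, ex_inj]

/-- The codimension one conjecture of Cattani, Cox and Dickenstein fails: on the Hirzebruch surface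
`F_1` the three polynomials `x₀ x₁², x₀ x₃ + x₁ x₂², x₂ x₃` of `B(Σ)` have no common zero, but the
quotient in the critical degree has dimension at least two. -/
theorem result : ¬ CodimensionOneConjecture := by
  intro h
  have h1 := h 2 4 fanH FH αH hom_FH FH_mem noCommonZero_H
  have h2 := LamQ.rank_le_of_surjective LamQ_surj
  rw [h1] at h2
  rw [rank_fun'] at h2
  simp at h2

end Pool.Agent.Results.MP_95a67a_ag.CodimOneFails
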